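import Pool.Agent.R677.Zeros.Fit

/-!
# Few zeros in the rows of the character table and nonabelian Fitting subgroup
-/

set_option autoImplicit false

namespace Pool.Agent.Results.MP_ad7422_al.ZerosNonabelianFitting

/-- `F` is the Fitting subgroup: the largest normal nilpotent subgroup. -/
def IsFitting {G : Type} [Group G] (F : Subgroup G) : Prop :=
  F.Normal ∧ Group.IsNilpotent F ∧
    ∀ N : Subgroup G, N.Normal → Group.IsNilpotent N → N ≤ F

/-- The number of conjugacy classes on which `χ` takes the value `0`. -/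
noncomputable def zeros {G : Type} [Group G] (χ : G → ℂ) : ℕ :=
  {c : ConjClasses G | ∀ g : G, ConjClasses.mk g = c → χ g = 0}.ncard

/-- The irreducible complex characters of `G`. -/
def Irr (G : Type) [Group G] : Set (G → ℂ) :=
  {χ | ∃ V : FDRep ℂ G, CategoryTheory.Simple V ∧ V.character = χ}

open Pool.Agent.R677.Zeros in
/-- There are arbitrarily large finite groups `G` with nonabelian Fitting subgroup `F` in which
every irreducible character vanishes on at most `6` conjugacy classes. -/
theorem result : ∀ B : ℕ, ∃ (G : Type) (_ : Group G) (_ : Finite G) (F : Subgroup G),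
    IsFitting F ∧ (∃ a ∈ F, ∃ b ∈ F, a * b ≠ b * a) ∧ (∀ χ ∈ Irr G, zeros χ ≤ 6) ∧
    B ≤ Nat.card G := by
  intro B
  refine ⟨Gp B, inferInstance, inferInstance, Gp.ker B,
    ⟨Gp.ker_normal, Gp.ker_nilpotent, le_ker⟩, ker_nonab, ?_, ?_⟩
  · rintro χ ⟨V, hV, rfl⟩
    exact zeros_le V hV
  · exact (Nat.lt_two_pow_self).le.trans card_Gp

end Pool.Agent.Results.MP_ad7422_al.ZerosNonabelianFitting
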